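import Pool.Agent.Y262.NU.Stm

/-!
# NU: perturbation of the bottom of a cluster (StBot)
-/

set_option autoImplicit false

namespace Pool.Agent.Y941.NU

open Set
open Pool.Agent.Y262.QE Pool.Agent.Y262.NU

section

variable {H : Type} [NormedAddCommGroup H] [InnerProductSpace ℝ H]

lemma lin_sum (f : H →L[ℝ] ℝ) {n : ℕ} (c : Fin n → ℝ) (x : Fin n → H) :
    f (∑ i, c i • x i) = ∑ i, c i * f (x i) := by
  rw [map_sum]
  exact Finset.sum_congr rfl fun i _ => by rw [map_smul, smul_eq_mul]

lemma bil_sum (b : H →L[ℝ] H →L[ℝ] ℝ) {n : ℕ} (c : Fin n → ℝ) (x : Fin n → H) (y : H) :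
    b (∑ i, c i • x i) y = ∑ i, c i * b (x i) y := by
  rw [map_sum, ContinuousLinearMap.sum_apply]
  exact Finset.sum_congr rfl fun i _ => by
    rw [map_smul, ContinuousLinearMap.smul_apply, smul_eq_mul]

lemma quad (b : H →L[ℝ] H →L[ℝ] ℝ) (hs : ∀ u v, b u v = b v u) (y u : H) (α : ℝ) :
    b (y + α • u) (y + α • u) = b y y + 2 * α * b u y + α ^ 2 * b u u := by
  simp only [map_add, map_smul, ContinuousLinearMap.add_apply, ContinuousLinearMap.smul_apply,
    smul_eq_mul]
  rw [hs y u]
  ring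

end

theorem bot : StBot := by
  intro H _ _ a b b' hF hF' e E hE u j η θ huu hu hEj hlt hη hθ hθ1 hbb hoff hgap
  -- `u` is orthogonal to the lower eigenvectors
  have hue : ∀ i, i < j → b u (e i) = 0 := by
    intro i hi
    have h1 := hu (e i)
    have h2 := hE.eig i u
    rw [hF.sa (e i) u, hF.sb (e i) u, h1] at h2
    have h3 := hlt i hi
    have h4 : (E j - E i) * b u (e i) = 0 := by linarith
    rcases mul_eq_zero.1 h4 with h | h
    · exfalso; linarith
    · exact h
  have hEi : ∀ i, 0 ≤ E i := by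
    intro i
    have h1 := hE.eig i (e i)
    rw [hE.orth i i, if_pos rfl, mul_one] at h1
    rw [← h1]; exact hF.na _
  have hb1 : 1 ≤ b' u u := by rw [← huu]; exact hbb u
  have hpos : 0 < b' u u - θ := by linarith
  -- the subspace
  obtain ⟨w, hw⟩ : ∃ w : Fin (j + 1) → H, w = Fin.snoc (α := fun _ => H) (fun i : Fin j => e i) u :=
    ⟨_, rfl⟩
  have hw1 : ∀ i : Fin j, w i.castSucc = e i := fun i => by rw [hw, Fin.snoc_castSucc]
  have hw2 : w (Fin.last j) = u := by rw [hw, Fin.snoc_last]
  have hyo : ∀ (c : Fin j → ℝ) (i : Fin j), b (e i) (∑ k, c k • e k) = c i := by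
    intro c i
    rw [lin_sum, Finset.sum_eq_single i]
    · rw [hE.orth, if_pos rfl, mul_one]
    · intro k _ hk
      rw [hE.orth, if_neg (fun h => hk (Fin.ext h.symm)), mul_zero]
    · intro h; exact absurd (Finset.mem_univ i) h
  have huy : ∀ c : Fin j → ℝ, b u (∑ k, c k • e k) = 0 := by
    intro c
    rw [lin_sum]
    exact Finset.sum_eq_zero fun i _ => by rw [hue i i.2, mul_zero]
  have hli : LinearIndependent ℝ w := by
    rw [Fintype.linearIndependent_iff]
    intro g hg
    rw [Fin.sum_univ_castSucc] at hg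
    simp only [hw1, hw2] at hg
    have h1 : g (Fin.last j) = 0 := by
      have h := congrArg (b u) hg
      rw [map_add, huy (fun i => g i.castSucc), map_smul, huu, map_zero, smul_eq_mul, mul_one,
        zero_add] at h
      exact h
    intro i
    refine Fin.lastCases h1 (fun i => ?_) i
    have h := congrArg (b (e i)) hg
    rw [map_add, hyo (fun i => g i.castSucc), map_smul, h1, zero_smul, add_zero, map_zero] at h
    exact h
  have hHD : HD a b' (E j / (b' u u - θ)) j := by
    refine ⟨Submodule.span ℝ (Set.range w), ?_, ?_⟩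
    · rw [finrank_span_eq_card hli, Fintype.card_fin]
    · intro v hv
      rw [Submodule.mem_span_range_iff_exists_fun] at hv
      obtain ⟨c, hc⟩ := hv
      rw [Fin.sum_univ_castSucc] at hc
      simp only [hw1, hw2] at hc
      obtain ⟨d, hd⟩ : ∃ d : Fin j → ℝ, d = fun i => c i.castSucc := ⟨_, rfl⟩
      obtain ⟨α, hα⟩ : ∃ α : ℝ, α = c (Fin.last j) := ⟨_, rfl⟩
      obtain ⟨y, hy⟩ : ∃ y : H, y = ∑ i, d i • e i := ⟨_, rfl⟩
      have hv : v = y + α • u := by rw [← hc, hy, hα, hd]
      have e1 : b u y = 0 := by rw [hy]; exact huy d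
      have e2 : b y y = ∑ i, d i ^ 2 := by
        conv_lhs => rw [hy, bil_sum, ← hy]
        refine Finset.sum_congr rfl fun i _ => ?_
        rw [hy, hyo d i]; ring
      have e3 : a y y = ∑ i : Fin j, E i * d i ^ 2 := by
        conv_lhs => rw [hy, bil_sum, ← hy]
        refine Finset.sum_congr rfl fun i _ => ?_
        rw [hE.eig, hy, hyo d i]; ring
      have e4 : a u y = 0 := by rw [hu, e1, mul_zero]
      have e5 : a u u = E j := by rw [hu, huu, mul_one]
      have e6 := quad a hF.sa y u α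
      have e7 := quad b' hF'.sb y u α
      rw [← hv] at e6 e7
      rw [e3, e4, e5, mul_zero, add_zero] at e6
      have e8 := hoff y e1
      have e9 := hbb y
      obtain ⟨Y, hY⟩ : ∃ Y : ℝ, Y = b y y := ⟨_, rfl⟩
      rw [← hY] at e8 e9 e2
      have e10 : α ^ 2 * (b' u u - θ) + (1 - η ^ 2 / θ) * Y ≤ b' v v := by
        rw [e7]
        have h1 : 0 ≤ (θ * α + b' u y) ^ 2 / θ := by positivity
        have h2 : (θ * α + b' u y) ^ 2 / θ = θ * α ^ 2 + 2 * α * b' u y + (b' u y) ^ 2 / θ := by
          field_simp; ring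
        have h3 : (b' u y) ^ 2 / θ ≤ η ^ 2 / θ * Y := by
          rw [div_mul_eq_mul_div]
          exact div_le_div_of_nonneg_right e8 hθ.le
        rw [h2] at h1
        nlinarith
      have e11 : ∑ i : Fin j, E i * d i ^ 2 ≤ E j / (b' u u - θ) * ((1 - η ^ 2 / θ) * Y) := by
        rw [e2, Finset.mul_sum, Finset.mul_sum]
        refine Finset.sum_le_sum fun i _ => ?_
        have h1 := hgap i i.2
        have h2 := hEi i
        have h3 : E i ≤ E j / (b' u u - θ) * (1 - η ^ 2 / θ) := by
          rw [div_mul_eq_mul_div, le_div_iff₀ hpos]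
          nlinarith
        calc E i * d i ^ 2 ≤ E j / (b' u u - θ) * (1 - η ^ 2 / θ) * d i ^ 2 :=
              mul_le_mul_of_nonneg_right h3 (sq_nonneg _)
          _ = _ := by ring
      have hlam : 0 ≤ E j / (b' u u - θ) := div_nonneg hEj.le hpos.le
      have e12 := mul_le_mul_of_nonneg_left e10 hlam
      have e13 : E j / (b' u u - θ) * (α ^ 2 * (b' u u - θ) + (1 - η ^ 2 / θ) * Y) =
          α ^ 2 * E j + E j / (b' u u - θ) * ((1 - η ^ 2 / θ) * Y) := by
        field_simp
      rw [e13] at e12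
      rw [e6]
      linarith
  have hle : Ev a b' j ≤ E j / (b' u u - θ) := by
    unfold Ev
    refine csInf_le ⟨0, ?_⟩ ⟨div_nonneg hEj.le hpos.le, hHD⟩
    rintro x ⟨hx, _⟩
    exact hx
  rwa [le_div_iff₀ hpos] at hle

end Pool.Agent.Y941.NU
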